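import Pool.Agent.Helper74.TvGraph

/-!
# A graph which is not 3-Tverberg

Points live in `Fin d → ℝ`.  The definitions below follow the problem file.
-/

namespace Pool.Agent.Results.MP_ba10a5_co.NotThreeTverberg

/-- `S` is in general position: no `d + 1` points of `S` lie on a common affine hyperplane
`{x | a · x = b}` with `a ≠ 0`. -/
def GeneralPosition {d : ℕ} (S : Finset (Fin d → ℝ)) : Prop :=
  ∀ T : Finset (Fin d → ℝ), T ⊆ S → T.card = d + 1 →
    ∀ (a : Fin d → ℝ) (b : ℝ), a ≠ 0 → ¬ ∀ x ∈ T, ∑ i, a i * x i = b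

/-- `C 0, …, C (n - 1)` is a partition of `S` into `n` nonempty classes. -/
structure IsPartition {d n : ℕ} (S : Finset (Fin d → ℝ)) (C : Fin n → Finset (Fin d → ℝ)) :
    Prop where
  nonempty : ∀ i, (C i).Nonempty
  disjoint : ∀ i j, i ≠ j → Disjoint (C i) (C j)
  cover : ∀ x, x ∈ S ↔ ∃ i, x ∈ C i

/-- The nerve of the partition: the sets `I` of indices such that the convex hulls of the classes
`C i`, `i ∈ I`, have a common point. -/
def nerve {d n : ℕ} (C : Fin n → Finset (Fin d → ℝ)) : Set (Finset (Fin n)) :=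
  {I | (⋂ i ∈ I, convexHull ℝ (C i : Set (Fin d → ℝ))).Nonempty}

/-- The simplicial complex `K` (given by its set of faces) is partition induced on `S`: some
partition of `S` has nerve isomorphic to `K`. -/
def PartitionInduced {V : Type*} {d : ℕ} (K : Set (Finset V)) (S : Finset (Fin d → ℝ)) : Prop :=
  ∃ (n : ℕ) (C : Fin n → Finset (Fin d → ℝ)), IsPartition S C ∧
    ∃ e : Fin n ≃ V, ∀ I : Finset (Fin n), I ∈ nerve C ↔ I.map e.toEmbedding ∈ K

/-- `K` is `d`-Tverberg: for some constant `c` it is partition induced on every finite set of more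
than `c` points in general position in `ℝ ^ d`. -/
def IsTverberg {V : Type*} (d : ℕ) (K : Set (Finset V)) : Prop :=
  ∃ c : ℕ, ∀ S : Finset (Fin d → ℝ), GeneralPosition S → c < S.card → PartitionInduced K S

/-- A graph as a `1`-dimensional simplicial complex: the faces are the empty set, the singletons
and the edges. -/
def graphComplex {V : Type*} (G : SimpleGraph V) : Set (Finset V) :=
  {I | I = ∅ ∨ (∃ v, I = {v}) ∨ ∃ (u v : V) (_ : G.Adj u v), (I : Set V) = {u, v}}

open Pool.Agent.Helper74.Tv in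
theorem moment_generalPosition (N : ℕ) :
    GeneralPosition (d := 3) (((Finset.range N).map ⟨fun n : ℕ => (n : ℝ),
      Nat.cast_injective⟩).map ⟨mc, mc_inj⟩) := by
  classical
  intro T hT hcard a b ha h
  have hmem : ∀ x ∈ T, mc (x 0) = x := by
    intro x hx
    have := hT hx
    rw [Finset.mem_map] at this
    obtain ⟨t, -, rfl⟩ := this
    simp [mc]
  refine mc_general (T.image fun x => x 0) ?_ a b ha ?_
  · rw [Finset.card_image_of_injOn, hcard]
    intro x hx y hy hxy
    have h1 := hmem x hx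
    have h2 := hmem y hy
    simp only at hxy
    rw [← h1, ← h2, hxy]
  · intro t ht
    rw [Finset.mem_image] at ht
    obtain ⟨x, hx, rfl⟩ := ht
    rw [hmem x hx]
    exact h x hx

/-- **Main theorem.** Some finite nonempty graph, even a bipartite one, is not `3`-Tverberg. -/
theorem result : ∃ (V : Type) (_ : Fintype V) (_ : Nonempty V) (G : SimpleGraph V),
    G.Colorable 2 ∧ ¬ IsTverberg 3 (graphComplex G) := by
  classical
  obtain ⟨m, G, hcol, hG⟩ := Pool.Agent.Helper74.Tv.exists_graph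
  have hne : Nonempty (Fin m ⊕ Fin m) := by
    by_contra h
    exact hG [] fun u _ _ => absurd ⟨u⟩ h
  refine ⟨Fin m ⊕ Fin m, inferInstance, hne, G, hcol, ?_⟩
  rintro ⟨c, hc⟩
  set N := c + 1 with hN
  set S : Finset (Fin 3 → ℝ) := ((Finset.range N).map ⟨fun n : ℕ => (n : ℝ),
      Nat.cast_injective⟩).map ⟨Pool.Agent.Helper74.Tv.mc, Pool.Agent.Helper74.Tv.mc_inj⟩ with hS
  have hSmem : ∀ x, x ∈ S ↔ ∃ k < N, Pool.Agent.Helper74.Tv.mc (k : ℝ) = x := by
    intro x
    simp only [hS, Finset.mem_map, Finset.mem_range, Function.Embedding.coeFn_mk]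
    constructor
    · rintro ⟨t, ⟨k, hk, rfl⟩, rfl⟩
      exact ⟨k, hk, rfl⟩
    · rintro ⟨k, hk, rfl⟩
      exact ⟨k, ⟨k, hk, rfl⟩, rfl⟩
  obtain ⟨n, C, hpart, e, he⟩ := hc S (moment_generalPosition N) (by
    rw [hS, Finset.card_map, Finset.card_map, Finset.card_range]; omega)
  have hidx : ∀ k : ℕ, k < N → ∃ i, Pool.Agent.Helper74.Tv.mc (k : ℝ) ∈ C i := fun k hk =>
    (hpart.cover _).mp ((hSmem _).mpr ⟨k, hk, rfl⟩)
  choose idx hidx' using hidx
  let f : ℕ → Fin m ⊕ Fin m := fun k =>
    if h : k < N then e (idx k h) else e (idx 0 (by omega))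
  have hf : ∀ k (h : k < N), f k = e (idx k h) := fun k h => by simp only [f]; rw [dif_pos h]
  have hclass : ∀ u, (C (e.symm u) : Set (Fin 3 → ℝ)) =
      Pool.Agent.Helper74.Tv.mc '' ((fun n : ℕ => (n : ℝ)) '' {k | k < N ∧ f k = u}) := by
    intro u
    ext x
    constructor
    · intro hx
      have hxS : x ∈ S := (hpart.cover x).mpr ⟨_, hx⟩
      obtain ⟨k, hk, rfl⟩ := (hSmem x).mp hxS
      refine ⟨k, ⟨k, ⟨hk, ?_⟩, rfl⟩, rfl⟩
      rw [hf k hk]
      by_contra hne
      have hne' : idx k hk ≠ e.symm u := fun h => hne (by rw [h]; simp)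
      exact Finset.disjoint_left.mp (hpart.disjoint _ _ hne') (hidx' k hk) hx
    · rintro ⟨_, ⟨k, ⟨hk, hku⟩, rfl⟩, rfl⟩
      rw [hf k hk] at hku
      rw [← hku, Equiv.symm_apply_apply]
      exact hidx' k hk
  apply hG ((List.range N).map f)
  intro u v huv
  rw [← Pool.Agent.Helper74.Tv.hull_iff_meets N f u v huv, ← hclass, ← hclass]
  have h1 := he {e.symm u, e.symm v}
  have h2 : (({e.symm u, e.symm v} : Finset (Fin n)).map e.toEmbedding) = {u, v} := by
    simp
  rw [h2] at h1
  have h3 : ({e.symm u, e.symm v} : Finset (Fin n)) ∈ nerve C ↔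
      (convexHull ℝ (C (e.symm u) : Set (Fin 3 → ℝ)) ∩
        convexHull ℝ (C (e.symm v) : Set (Fin 3 → ℝ))).Nonempty := by
    simp only [nerve, Set.mem_setOf_eq, Finset.set_biInter_insert, Finset.set_biInter_singleton]
  rw [← h3, h1]
  constructor
  · rintro (h | ⟨w, h⟩ | ⟨a, b, hab, h⟩)
    · exact absurd h (Finset.insert_ne_empty _ _)
    · exfalso
      have hu : u ∈ ({w} : Finset (Fin m ⊕ Fin m)) := by rw [← h]; simp
      have hv : v ∈ ({w} : Finset (Fin m ⊕ Fin m)) := by rw [← h]; simp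
      rw [Finset.mem_singleton] at hu hv
      exact huv (hu.trans hv.symm)
    · have hu : u ∈ ({a, b} : Set (Fin m ⊕ Fin m)) := by rw [← h]; simp
      have hv : v ∈ ({a, b} : Set (Fin m ⊕ Fin m)) := by rw [← h]; simp
      rcases hu with rfl | rfl <;> rcases hv with rfl | rfl
      · exact absurd rfl huv
      · exact hab
      · exact hab.symm
      · exact absurd rfl huv
  · intro h
    exact Or.inr (Or.inr ⟨u, v, h, by simp⟩)

end Pool.Agent.Results.MP_ba10a5_co.NotThreeTverberg
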